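import Pool.Agent.Q99.FP2.GJ

/-!
# Fully augmented links: the growth of the phase
-/

set_option autoImplicit false

namespace Pool.Agent.Q99.FP2

open Matrix Finset Filter Topology
open Pool.Agent.W715.VC (rt)
open Pool.Agent.W709.QAT (Piece run)
open Pool.Agent.Q191.TW (cs cs_add cs_zero cs_period cs_period' rt_cs cs_neg)
open Pool.Agent.Q191.LB (sg)
open Pool.Agent.Q99.FW (TZ Kg K2 Xm)
open Pool.Agent.Q99.FAL

/-- `f N = exp (π i (α N ^ 2 + β N + γ) / N)` for some `β`, `γ` -/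
def Phs (f : ℕ → ℂ) (α : ℝ) : Prop :=
  ∃ β γ : ℝ, ∀ N : ℕ, 0 < N → f N = cs N (α * (N : ℝ) ^ 2 + β * N + γ)

lemma Phs.mul {f g : ℕ → ℂ} {a b : ℝ} (hf : Phs f a) (hg : Phs g b) :
    Phs (fun N => f N * g N) (a + b) := by
  obtain ⟨β, γ, hf⟩ := hf
  obtain ⟨β', γ', hg⟩ := hg
  refine ⟨β + β', γ + γ', fun N hN => ?_⟩
  show f N * g N = _
  rw [hf N hN, hg N hN, ← cs_add]
  congr 1
  ring

lemma Phs.one : Phs (fun _ => 1) 0 := ⟨0, 0, fun N _ => by
  have h : (0 : ℝ) * (N : ℝ) ^ 2 + 0 * N + 0 = 0 := by ring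
  rw [h, cs_zero]⟩

lemma Phs.pow {f : ℕ → ℂ} {a : ℝ} (hf : Phs f a) : ∀ m : ℕ, Phs (fun N => f N ^ m) (m * a)
  | 0 => by simpa using Phs.one
  | m + 1 => by
    have h := (hf.pow m).mul hf
    simp only [pow_succ]
    convert h using 1
    push_cast
    ring

lemma Phs.shift {f : ℕ → ℂ} {a b : ℝ} (hf : Phs f a) (k : ℤ) (h : b = a + 2 * k) : Phs f b := by
  obtain ⟨β, γ, hf⟩ := hf
  refine ⟨β, γ, fun N hN => ?_⟩
  rw [hf N hN]
  refine cs_period' hN (-(k * N)) ?_
  rw [h]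
  push_cast
  ring

lemma phs_Kg (σ : Bool) : Phs (fun N => Kg N (sg σ)) (-(sg σ : ℝ) / 4) := by
  cases σ
  · refine Phs.shift (a := 9 / 4) ⟨1 / 2, -3 / 4, fun N hN => ?_⟩ (-1) ?_
    · show Kg N (-1) = _
      unfold Kg
      rw [if_neg (by norm_num)]
      congr 1
      ring
    · show -((-1 : ℤ) : ℝ) / 4 = _
      push_cast
      norm_num
  · refine Phs.shift (a := -1 / 4) ⟨3 / 2, 3 / 4, fun N hN => ?_⟩ 0 ?_
    · show Kg N 1 = _
      unfold Kg
      rw [if_pos rfl]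
      congr 1
      ring
    · show -((1 : ℤ) : ℝ) / 4 = _
      push_cast
      norm_num

lemma phs_K2 : Phs K2 0 := by
  refine Phs.shift (a := -2) ⟨0, 2, fun N hN => ?_⟩ 1 (by norm_num)
  unfold K2
  rw [rt_cs]
  congr 1
  push_cast
  ring

lemma nu_cs {N : ℕ} (hN : 0 < N) (s : ℤ) : nu N s = cs N (N * s - s) := by
  have hN0 : (N : ℝ) ≠ 0 := by exact_mod_cast hN.ne'
  have h1 : -(rt N)⁻¹ = cs N (N - 1) := by
    have h2 : (rt N)⁻¹ = cs N (-1) := by
      have := rt_cs N (-1)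
      rw [_root_.zpow_neg_one] at this
      rw [this]
      congr 1
      push_cast
      ring
    have h3 : cs N (N : ℝ) = -1 := by
      unfold cs
      rw [show Real.pi * (N : ℝ) / N = Real.pi by field_simp, Complex.exp_pi_mul_I]
    rw [h2, sub_eq_add_neg, cs_add, h3]
    ring
  unfold nu
  rw [h1]
  have h4 : ∀ k : ℕ, cs N ((N : ℝ) - 1) ^ k = cs N (N * k - k) := by
    intro k
    induction k with
    | zero => simp [cs_zero]
    | succ k ih =>
      rw [pow_succ, ih, ← cs_add]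
      congr 1
      push_cast
      ring
  obtain ⟨k, rfl | rfl⟩ := s.eq_nat_or_neg
  · rw [_root_.zpow_natCast, h4]
    push_cast
    rfl
  · rw [_root_.zpow_neg, _root_.zpow_natCast, h4, ← cs_neg]
    congr 1
    push_cast
    ring

lemma phs_nu (s : ℤ) : Phs (fun N => nu N s) 0 := by
  refine ⟨s, -s, fun N hN => ?_⟩
  show nu N s = _
  rw [nu_cs hN]
  congr 1
  ring

lemma ep_cs {N : ℕ} (hN : 0 < N) (k : ℤ) : ep N k = cs N (N * (N + 1) * k) := by
  have hN0 : (N : ℝ) ≠ 0 := by exact_mod_cast hN.ne'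
  have h1 : ((-1 : ℂ) ^ (N + 1)) = cs N (N * (N + 1)) := by
    unfold cs
    rw [show Real.pi * ((N : ℝ) * (N + 1)) / N = ((N + 1 : ℕ) : ℝ) * Real.pi by
      push_cast; field_simp]
    rw [← Complex.exp_pi_mul_I, ← Complex.exp_nat_mul]
    congr 1
    push_cast
    ring
  unfold ep
  rw [h1]
  have h4 : ∀ k : ℕ, cs N ((N : ℝ) * (N + 1)) ^ k = cs N (N * (N + 1) * k) := by
    intro k
    induction k with
    | zero => simp [cs_zero]
    | succ k ih =>
      rw [pow_succ, ih, ← cs_add]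
      congr 1
      push_cast
      ring
  obtain ⟨j, rfl | rfl⟩ := k.eq_nat_or_neg
  · rw [_root_.zpow_natCast, h4]
    push_cast
    rfl
  · rw [_root_.zpow_neg, _root_.zpow_natCast, h4, ← cs_neg]
    congr 1
    push_cast
    ring

lemma phs_ep (k : ℤ) : Phs (fun N => ep N k) k := by
  refine ⟨k, 0, fun N hN => ?_⟩
  show ep N k = _
  rw [ep_cs hN]
  congr 1
  ring

lemma phs_kcup (n p : ℕ) : Phs (fun N => kcup N n p) (p + 3 / 2) := by
  have h : Phs (fun N => cs N (((N : ℝ) - 1) ^ 2 * ((p : ℤ) + 3 / 2))) (p + 3 / 2) :=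
    ⟨-2 * (p + 3 / 2), p + 3 / 2, fun N _ => by
      show cs N _ = _
      congr 1
      push_cast
      ring⟩
  have := (phs_nu (-((n : ℤ) - p))).mul h
  rwa [zero_add] at this

lemma phs_kcap (n p : ℕ) : Phs (fun N => kcap N n p) (-(p + 1 / 2)) := by
  have h : Phs (fun N => cs N (-(((N : ℝ) - 1) ^ 2 * ((p : ℤ) + 1 / 2)))) (-(p + 1 / 2)) :=
    ⟨2 * (p + 1 / 2), -(p + 1 / 2), fun N _ => by
      show cs N _ = _
      congr 1
      push_cast
      ring⟩
  have := (phs_nu (1 + n)).mul h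
  rwa [zero_add] at this

/-- the potential of a horizontal line with `n` strands -/
noncomputable def Fh (n : ℕ) : ℝ := ((n : ℝ) ^ 2 + n - 2) / 4

lemma phs_th (T : Ty) (p n : ℕ) (σ : Bool) (m : ℕ) (h : p + wd T ≤ n) :
    Phs (fun N => th N T p n σ m) (-(sg σ * m : ℝ) / 4 + (Fh (up T n) - Fh n)) := by
  have hKg : Phs (fun N => Kg N (sg σ) ^ m * K2 N) (-(sg σ * m : ℝ) / 4) := by
    have := ((phs_Kg σ).pow m).mul phs_K2
    convert this using 1
    ring
  cases T
  · have : up .V n = n := rfl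
    rw [this, sub_self, add_zero]
    exact hKg
  · have e : up .H n = n := rfl
    rw [e, sub_self, add_zero]
    have := (((phs_kcup n (p + 1 + 1)).mul hKg).mul (phs_kcap (n - p) p)).mul (phs_ep (-1))
    refine this.shift (-1) ?_
    push_cast
    ring
  · have e : up .YL n = n + 2 := rfl
    have h' : p + 1 ≤ n := h
    have h1 : ((n - p - 1 : ℕ) : ℝ) = n - p - 1 := by
      rw [Nat.cast_sub (by omega), Nat.cast_sub (by omega)]
      push_cast
      ring
    have := ((phs_kcup n (p + 1)).mul hKg).mul ((phs_ep 1).pow (n - p - 1))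
    refine this.shift 0 ?_
    rw [e, h1]
    unfold Fh
    push_cast
    ring
  · have e : up .YR n = n + 2 := rfl
    have h' : p + 1 ≤ n := h
    have h1 : ((n - p - 1 : ℕ) : ℝ) = n - p - 1 := by
      rw [Nat.cast_sub (by omega), Nat.cast_sub (by omega)]
      push_cast
      ring
    have := ((phs_kcup n p).mul hKg).mul ((phs_ep 1).pow (n - p - 1 + 1))
    refine this.shift 0 ?_
    rw [e]
    push_cast
    rw [h1]
    unfold Fh
    push_cast
    ring
  · have e : up .LL n = n - 2 := rfl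
    have h' : p + 3 ≤ n := h
    have h1 : ((n - p - 3 : ℕ) : ℝ) = n - p - 3 := by
      rw [Nat.cast_sub (by omega), Nat.cast_sub (by omega)]
      push_cast
      ring
    have h2 : ((n - 2 : ℕ) : ℝ) = n - 2 := by
      rw [Nat.cast_sub (by omega)]
      push_cast
      ring
    have := (hKg.mul (phs_kcap (n - p - 3) (p + 1))).mul
      ((phs_ep (-1)).mul ((phs_ep (-1)).pow (n - p - 3)))
    refine this.shift 0 ?_
    rw [e, h1]
    unfold Fh
    rw [h2]
    push_cast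
    ring
  · have e : up .LR n = n - 2 := rfl
    have h' : p + 3 ≤ n := h
    have h1 : ((n - p - 3 : ℕ) : ℝ) = n - p - 3 := by
      rw [Nat.cast_sub (by omega), Nat.cast_sub (by omega)]
      push_cast
      ring
    have h2 : ((n - 2 : ℕ) : ℝ) = n - 2 := by
      rw [Nat.cast_sub (by omega)]
      push_cast
      ring
    have := (hKg.mul (phs_kcap (n - p - 2) p)).mul
      ((phs_ep (-1)).mul ((phs_ep (-1)).pow (n - p - 3 + 1)))
    refine this.shift 0 ?_
    rw [e]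
    unfold Fh
    rw [h2]
    push_cast
    rw [h1]
    ring

/-- the signed number of crossings -/
noncomputable def wD : List Pc → ℝ
  | [] => 0
  | P :: D => sg P.σ * P.m + wD D

lemma phs_Th : ∀ (D : List Pc) (n : ℕ), Val D n → Phs (fun N => Th N D n) (-(wD D) / 4 - Fh n)
  | [], n, h => by
    have h1 : n = 1 := h
    subst h1
    have e : -(wD []) / 4 - Fh 1 = 0 := by
      show -(0 : ℝ) / 4 - Fh 1 = 0
      unfold Fh
      norm_num
    rw [e]
    exact Phs.one
  | P :: D, n, h => by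
    have := (phs_th P.ty P.p n P.σ P.m h.1).mul (phs_Th D _ h.2)
    have e : -(wD (P :: D)) / 4 - Fh n = -(sg P.σ * P.m : ℝ) / 4 + (Fh (up P.ty n) - Fh n) +
        (-(wD D) / 4 - Fh (up P.ty n)) := by
      show -((sg P.σ : ℝ) * P.m + wD D) / 4 - Fh n = _
      ring
    rw [e]
    exact this

lemma Phs.lim {f : ℕ → ℂ} {α : ℝ} (h : Phs f α) : ∃ z : ℂ, z ≠ 0 ∧
    Tendsto (fun N : ℕ => f N * Complex.exp (-(N * (Real.pi * α * Complex.I)))) atTop (𝓝 z) := by
  obtain ⟨β, γ, hf⟩ := h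
  refine ⟨Complex.exp ((Real.pi * β : ℝ) * Complex.I), Complex.exp_ne_zero _, ?_⟩
  have h1 : Tendsto (fun N : ℕ => Real.pi * β + Real.pi * γ * (1 / (N : ℝ))) atTop
      (𝓝 (Real.pi * β)) := by
    have := (tendsto_one_div_atTop_nhds_zero_nat (𝕜 := ℝ)).const_mul (Real.pi * γ)
    rw [mul_zero] at this
    simpa using this.const_add (Real.pi * β)
  have h2 : Tendsto (fun N : ℕ => Complex.exp
      (((Real.pi * β + Real.pi * γ * (1 / (N : ℝ)) : ℝ) : ℂ) * Complex.I)) atTop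
      (𝓝 (Complex.exp ((Real.pi * β : ℝ) * Complex.I))) :=
    (Complex.continuous_exp.tendsto _).comp
      (((Complex.continuous_ofReal.tendsto _).comp h1).mul_const _)
  refine h2.congr' ?_
  filter_upwards [eventually_gt_atTop 0] with N hN
  have hN0 : (N : ℂ) ≠ 0 := by exact_mod_cast hN.ne'
  rw [hf N hN]
  unfold cs
  rw [← Complex.exp_add]
  congr 1
  push_cast
  field_simp
  ring

/-- **the complexified volume conjecture for fully augmented links**, in the notation of the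
library -/
theorem vcp (D : List Pc) (hV : Val D 1) (hP : Pri D 1) (hD : D ≠ []) (hp : ∃ p, Pos D p) :
    ∃ z : ℂ, z ≠ 0 ∧ Tendsto (fun N : ℕ => run N (rt N) (D.flatMap els)
      (fun l => if l.map (fun x => (x : ℕ)) = [0] then 1 else 0)
        (if h : 0 < N then [⟨0, h⟩] else []) /
      (N * √N * Complex.exp (N * ((sSup (fV '' AS D) : ℝ) +
        Real.pi * (-(wD D) / 4 : ℝ) * Complex.I)))) atTop (𝓝 z) := by
  obtain ⟨p, hp⟩ := hp
  obtain ⟨X, hgood, hAng, hZ', hdim⟩ := Pool.Agent.Q224.FAL.task_GD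
    Pool.Agent.Q237.FAL.task_SO Pool.Agent.Q237.FAL.task_OZ
    Pool.Agent.Q237.FAL.task_SUR Pool.Agent.Q237.FAL.task_NC Pool.Agent.Q299.FAL.task_SP
    Pool.Agent.Q299.FAL.task_DIM Pool.Agent.Q299.FAL.task_CN Pool.Agent.Q149.FAL.task_UNR
    D hV hP hD p hp
  obtain ⟨z, hz, hlim⟩ := Pool.Agent.Q299.FAL.task_NET task_T1 task_T2 Pool.Agent.Q299.FAL.task_GI
    Pool.Agent.Q299.FAL.task_LB task_MAX Pool.Agent.Q299.FAL.task_CR Pool.Agent.Q280.FAL.task_NB
    Pool.Agent.Q280.FAL.task_NL D.length X p (ws D) hgood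
  have hph := phs_Th D 1 hV
  have hF : -(wD D) / 4 - Fh 1 = -(wD D) / 4 := by
    unfold Fh
    norm_num
  rw [hF] at hph
  obtain ⟨z', hz', hlim'⟩ := hph.lim
  refine ⟨z' * z, mul_ne_zero hz' hz, ?_⟩
  refine (hlim'.mul hlim).congr' ?_
  filter_upwards [eventually_gt_atTop 0] with N hN
  rw [Pool.Agent.Q224.FAL.fun_zero hN, dif_pos hN, j_ex N hN D hV, hZ' N hN, hAng]
  have hid := Pool.Agent.Q224.FAL.pow_id hN hdim
  have hNr : (0 : ℝ) < N := by exact_mod_cast hN
  have hs : (0 : ℝ) < √N := Real.sqrt_pos.mpr hNr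
  have hNc : (N : ℂ) ≠ 0 := by exact_mod_cast hN.ne'
  have hsc : ((√N : ℝ) : ℂ) ≠ 0 := by exact_mod_cast hs.ne'
  rw [← hid]
  have e : Complex.exp (N * ((sSup (fV '' AS D) : ℝ) +
        Real.pi * (-(wD D) / 4 : ℝ) * Complex.I)) =
      Complex.exp (N * (sSup (fV '' AS D) : ℝ)) *
        Complex.exp (N * (Real.pi * (-(wD D) / 4 : ℝ) * Complex.I)) := by
    rw [← Complex.exp_add]
    congr 1
    ring
  rw [e, Complex.exp_neg]
  have e1 := Complex.exp_ne_zero (N * (Real.pi * (-(wD D) / 4 : ℝ) * Complex.I))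
  have e2 := Complex.exp_ne_zero (N * (sSup (fV '' AS D) : ℝ))
  push_cast at e1 e2 ⊢
  rw [Complex.exp_neg]
  field_simp

end Pool.Agent.Q99.FP2
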