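import Pool.Agent.Q99.FAL.Asm

/-!
# Fully augmented links: the phases

The same as `Q98/FAL/CUP.lean`, `Q98/FAL/CAP.lean` (by helper98) and `Q224/FAL/TRa.lean`,
`TRb.lean`, `TRc.lean` (by helper224), with explicit constants.
-/

set_option autoImplicit false

namespace Pool.Agent.Q99.FP2

open Finset
open Pool.Agent.Q99.FAL
open Pool.Agent.Q98.FAL
open Pool.Agent.H550R3.Jones (br brf)
open Pool.Agent.W715.VC (rt rt_ne rt_zpow rt_zpow_N)
open Pool.Agent.W709.QAT (Piece run kap)
open Pool.Agent.Q191.TW (cs cs_add cs_zero cs_ne cs_neg cs_norm cs_period cs_period' rt_cs)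

/-- the constant of a cup -/
noncomputable def kcup (N n p : ℕ) : ℂ :=
  nu N (-((n : ℤ) - p)) * cs N (((N : ℝ) - 1) ^ 2 * ((p : ℤ) + 3 / 2))

/-- the constant of a cap -/
noncomputable def kcap (N n p : ℕ) : ℂ :=
  nu N (1 + n) * cs N (-(((N : ℝ) - 1) ^ 2 * ((p : ℤ) + 1 / 2)))

/-- `S_CUP` with the explicit constant -/
def CUP' : Prop := ∀ N : ℕ, 0 < N → ∀ n p : ℕ, p ≤ n → ∀ s : List ℤ,
  s.length = n → ∀ l : List (Fin N), l.length = n + 2 →
  run N (rt N) [Piece.cup p] (UU N s) l =
    kcup N n p / N * ∑ t ∈ range N,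
      UU N (s.take p ++ (t : ℤ) :: (t : ℤ) :: (s.drop p).map (· + 1)) l

/-- `S_CAP` with the explicit constant -/
def CAP' : Prop := ∀ N : ℕ, 0 < N → ∀ n p : ℕ, ∀ (L R : List ℤ) (a b : ℤ),
  L.length = p → R.length = n → ∀ l : List (Fin N), l.length = p + n →
  run N (rt N) [Piece.cap p] (UU N (L ++ a :: b :: R)) l =
    if (N : ℤ) ∣ b - a - 1 then kcap N n p * N * ep N ((b - a - 1) / N) *
      UU N (L ++ R.map (· - 1)) l else 0

variable {N : ℕ}

theorem cup_ex : CUP' := by
  intro N hN n p hp s hs l hl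
  have hN0 : (N : ℂ) ≠ 0 := by exact_mod_cast hN.ne'
  unfold kcup
  rw [run_one]
  obtain ⟨L, R, rfl, hL⟩ : ∃ L R : List ℤ, s = L ++ R ∧ L.length = p :=
    ⟨s.take p, s.drop p, (List.take_append_drop p s).symm, by
      rw [List.length_take]; omega⟩
  obtain ⟨x, y, rfl, hx⟩ : ∃ x y : List (Fin N), l = x ++ y ∧ x.length = p :=
    ⟨l.take p, l.drop p, (List.take_append_drop p l).symm, by
      rw [List.length_take]; omega⟩
  have hR : R.length = n - p := by
    rw [List.length_append] at hs; omega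
  have hy : y.length = (n - p) + 1 + 1 := by
    rw [List.length_append] at hl; omega
  obtain ⟨a, y', rfl⟩ := List.exists_cons_of_length_eq_add_one hy
  have hy' : y'.length = (n - p) + 1 := by
    simpa using hy
  obtain ⟨b, r, rfl⟩ := List.exists_cons_of_length_eq_add_one hy'
  have hr : r.length = n - p := by simpa using hy'
  have hLx : L.length = x.length := by rw [hL, hx]
  rw [List.take_left' hL, List.drop_left' hL]
  have hact : (Piece.cup p).act N (rt N) (UU N (L ++ R)) (x ++ a :: b :: r) =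
      Pool.Agent.W709.QAT.cup N (rt N) (a, b) * UU N (L ++ R) (x ++ r) := by
    unfold Piece.act
    simp only [List.drop_left' hx, List.take_left' hx]
  rw [hact]
  have hsum : ∀ t ∈ range N, UU N (L ++ (t : ℤ) :: (t : ℤ) :: R.map (· + 1)) (x ++ a :: b :: r) =
      nu N (L.sum + R.sum + R.length) * (uu N 0 L x * uu N L.length R r) *
        (nu N (2 * t) * (ph N L.length t (a : ℕ) * ph N (L.length + 1) t (b : ℕ))) := by
    intro t _
    rw [UU_cup hN L R x r hLx t a b]
    ring
  rw [sum_congr rfl hsum, ← mul_sum, sum_cup hN]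
  unfold Pool.Agent.W709.QAT.cup UU
  rw [uu_app L R 0 x r hLx, zero_add]
  simp only
  by_cases hab : (a : ℕ) + b = N - 1
  · rw [if_pos hab, if_pos hab]
    have h1 : nu N (L.sum + R.sum + R.length) * nu N (-((n : ℤ) - p)) = nu N (L ++ R).sum := by
      rw [← nu_add]
      congr 1
      rw [List.sum_append, hR]
      push_cast [hp]
      ring
    have h2 : cs N (((N : ℝ) - 1) ^ 2 * ((p : ℤ) + 3 / 2)) *
        cs N (-(((N : ℝ) - 1) ^ 2 * ((L.length : ℤ) + 3 / 2))) = 1 := by
      rw [← cs_add, hL]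
      have : ((N : ℝ) - 1) ^ 2 * ((p : ℤ) + 3 / 2) + -(((N : ℝ) - 1) ^ 2 * (((p : ℕ) : ℤ) + 3 / 2)) =
        0 := by push_cast; ring
      rw [this, cs_zero]
    rw [← h1, div_mul_eq_mul_div, eq_div_iff hN0]
    linear_combination (-(kap N (rt N) a * nu N (L.sum + R.sum + R.length) * nu N (-((n : ℤ) - p)) *
      uu N 0 L x * uu N L.length R r * N)) * h2
  · rw [if_neg hab, if_neg hab]
    ring


theorem cap_ex : CAP' := by
  intro N hN n p L R a b hL hR l hl
  unfold kcap
  obtain ⟨x, y, rfl, hx⟩ : ∃ x y : List (Fin N), l = x ++ y ∧ x.length = p :=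
    ⟨l.take p, l.drop p, (List.take_append_drop p l).symm, by
      rw [List.length_take]; omega⟩
  have hLx : L.length = x.length := by rw [hL, hx]
  have hact : run N (rt N) [Piece.cap p] (UU N (L ++ a :: b :: R)) (x ++ y) =
      ∑ q : Fin N × Fin N, Pool.Agent.W709.QAT.cap N (rt N) q *
        UU N (L ++ a :: b :: R) (x ++ q.1 :: q.2 :: y) := by
    show (Piece.cap p).act N (rt N) _ _ = _
    unfold Piece.act
    simp only [List.drop_left' hx, List.take_left' hx]
  rw [hact]
  have hsum : ∀ q : Fin N × Fin N, Pool.Agent.W709.QAT.cap N (rt N) q *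
      UU N (L ++ a :: b :: R) (x ++ q.1 :: q.2 :: y) =
      nu N (L.sum + R.sum + (a + b)) * (uu N 0 L x * uu N (L.length + 2) R y) *
      (Pool.Agent.W709.QAT.cap N (rt N) q *
        (ph N L.length a (q.1 : ℕ) * ph N (L.length + 1) b (q.2 : ℕ))) := by
    intro q
    rw [UU_cap L R x y hLx a b q.1 q.2]
    ring
  simp only [hsum]
  rw [← mul_sum, sum_cap hN]
  split_ifs with h
  · obtain ⟨k, hk⟩ := h
    have hk2 : (b - a - 1) / N = k := by
      rw [hk]
      exact Int.mul_ediv_cancel_left _ (by exact_mod_cast hN.ne')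
    rw [hk2]
    unfold UU
    rw [uu_app L _ 0 x _ hLx, zero_add, uu_shift' hN]
    have h1 : (L ++ R.map (· - 1)).sum = L.sum + R.sum - n := by
      have h2 : (R.map (· - 1)).sum = R.sum - R.length := by
        clear hR hact hsum
        induction R with
        | nil => simp
        | cons c R ih =>
          simp only [List.map_cons, List.sum_cons, ih, List.length_cons]
          push_cast
          ring
      rw [List.sum_append, h2, hR]
      ring
    rw [h1]
    have h3 : nu N (L.sum + R.sum + (a + b)) * cs N (2 * a) =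
        nu N (1 + n) * ep N k * nu N (L.sum + R.sum - n) := by
      have h4 : L.sum + R.sum + (a + b) = (1 + n) + N * k + (L.sum + R.sum - n) + 2 * a := by
        linarith
      rw [h4, nu_add, nu_add, nu_add, nu_N hN, nu_two, mul_assoc (nu N (1 + n) * ep N k *
        nu N (L.sum + R.sum - n)), ← cs_add]
      have : -2 * (a : ℝ) + 2 * a = 0 := by ring
      rw [this, cs_zero, mul_one]
    rw [cs_add, hL]
    linear_combination (uu N 0 L x * uu N (p + 2) R y * cs N (-(((N : ℝ) - 1) ^ 2 *
      (((p : ℕ) : ℤ) + 1 / 2))) * N) * h3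
  · simp


end Pool.Agent.Q99.FP2
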