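import Pool.Agent.Q99.FP2.Tr

/-!
# Fully augmented links: the state sum with the explicit constant

After `Q151/FAL/G.lean` (by helper151) and `Q162/FAL/J.lean` (by helper162).
-/

set_option autoImplicit false

namespace Pool.Agent.Q99.FP2

open Matrix Finset
open Pool.Agent.W715.VC (rt)
open Pool.Agent.W709.QAT (Piece run)
open Pool.Agent.Q191.TW (cs cs_add cs_zero cs_period)
open Pool.Agent.Q191.LB (sg)
open Pool.Agent.Q191.TB (Gd)
open Pool.Agent.Q99.FAL

/-- the product of the constants of the vertices -/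
noncomputable def Th (N : ℕ) : List Pc → ℕ → ℂ
  | [], _ => 1
  | P :: D, n => th N P.ty P.p n P.σ P.m * Th N D (up P.ty n)

open GG in
/-- `S_G` with the explicit constant -/
theorem g_ex (N : ℕ) (h : 0 < N) (D : List Pc) : ∀ n : ℕ, Val D n →
    ∀ (s : ℤ) (G : List ℤ), G.length = n + 1 → (∀ g ∈ G, 0 ≤ g) →
    G.head? = some 0 → G.getLast? = some 0 → 2 * G.sum = ((n : ℤ) - 1) * (N - 1) →
    run N (rt N) (D.flatMap els) (UU N (str s G)) [⟨0, h⟩] =
      Th N D n * N ^ (D.map fun P => ex P.ty).sum * nu N s * SD N D G := by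
  have hZ := Pool.Agent.Q162.FAL.task_Z t_TRall N h
  induction D with
  | nil =>
    intro n hv
    have hn : n = 1 := hv
    subst hn
    intro s G hl hG h0 h1 hs
    rcases G with _ | ⟨a, _ | ⟨b, _ | ⟨c, R⟩⟩⟩
    · simp at hl
    · simp at hl
    · simp at h0 h1
      subst h0 h1
      simp [SD, run, UU, uu, str, ph, cs, nu, Th]
    · simp at hl
  | cons P D ih =>
    intro n hv
    have IH := ih (up P.ty n) hv.2
    obtain ⟨T, p, σ, m⟩ := P
    obtain ⟨hv1, hv2⟩ := hv
    simp only at hv1 hv2 IH
    have H := tr_all T N h p n σ m hv1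
    intro s G hl hG h0 h1 hs
    show _ = th N T p n σ m * Th N D (up T n) * _ * _ * _
    generalize th N T p n σ m = θ at H ⊢
    generalize Th N D (up T n) = θ' at IH ⊢
    obtain ⟨ε, hε, hrun⟩ := H s G hl hG
    rw [List.flatMap_cons, run_app, SD]
    have e1 := Loc_D (v := rt N) D (up T n) hv2 _ _ (fun l hl => hrun l hl) [⟨0, h⟩] rfl
    rw [e1, run_smul]
    simp only
    rw [run_sum]
    simp only [run_ite]
    rw [List.map_cons, List.sum_cons, pow_add]
    have key : ∀ x : Fin 6 → Fin N, (if n1 (zz x) + n2 (zz x) = (N : ℤ) - 1 ∧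
        (∀ c ∈ cls T p (cor (zz x)) G, (N : ℤ) ∣ c + 1) then
          wt6 N (sg σ * m) (zz x) * ε x * run N (rt N) (D.flatMap els)
            (UU N (str s (stp T p (cor (zz x)) G))) [⟨0, h⟩] else 0) =
        θ' * (N : ℂ) ^ (D.map fun P => ex P.ty).sum * nu N s *
          (if n1 (zz x) + n2 (zz x) = (N : ℤ) - 1 ∧
            (∀ c ∈ cls T p (cor (zz x)) G, c = N - 1) then
          wt6 N (sg σ * m) (zz x) * SD N D (stp T p (cor (zz x)) G) else 0) := by
      intro x
      have F := facts T p n hv1 (cor (zz x)) (cor_nonneg x) G hl hG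
      by_cases hx : n1 (zz x) + n2 (zz x) = (N : ℤ) - 1
      swap
      · rw [if_neg (fun h => hx h.1), if_neg (fun h => hx h.1), mul_zero]
      by_cases hc : ∀ c ∈ cls T p (cor (zz x)) G, c = (N : ℤ) - 1
      · have hc' : ∀ c ∈ cls T p (cor (zz x)) G, (N : ℤ) ∣ c + 1 := by
          intro c hcm
          rw [hc c hcm]
          simp
        rw [if_pos ⟨hx, hc'⟩, if_pos ⟨hx, hc⟩, hε x hc, mul_one]
        have hsum : 2 * (stp T p (cor (zz x)) G).sum = (((up T n : ℕ) : ℤ) - 1) * (N - 1) := by
          have a1 := F.sum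
          have a2 := sum_eq' hc
          have a3 : (2 : ℤ) * ((cls T p (cor (zz x)) G).length : ℤ) + (up T n : ℕ) = n + 2 := by
            exact_mod_cast F.clen
          rw [cor_sum, hx, a2] at a1
          linear_combination 2 * a1 + hs - ((N : ℤ) - 1) * a3
        have hh0 : 0 ≤ hd (stp T p (cor (zz x)) G) := by
          have := F.hd
          have : hd G = 0 := by simp [hd, h0]
          linarith
        have hl0 : 0 ≤ ls (stp T p (cor (zz x)) G) := by
          have := F.ls
          have : ls G = 0 := by simp [ls, h1]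
          linarith
        by_cases hpos : 0 < hd (stp T p (cor (zz x)) G) ∨ 0 < ls (stp T p (cor (zz x)) G)
        · rw [SD_zero N D _ hv2 _ F.len F.nn hpos]
          have hlen : 2 ≤ (stp T p (cor (zz x)) G).length := by
            rw [F.len]
            cases T <;> simp only [up, wd] at hv1 ⊢ <;> omega
          rw [outer N h hZ D _ hv2 s _ F.len hlen F.nn hsum hpos, mul_zero, mul_zero]
        · push Not at hpos
          have hne : stp T p (cor (zz x)) G ≠ [] := by
            intro h'
            have := F.len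
            rw [h'] at this
            simp at this
          have r1 : (stp T p (cor (zz x)) G).head? = some 0 := by
            have e : hd (stp T p (cor (zz x)) G) = 0 := le_antisymm hpos.1 hh0
            unfold hd at e
            rcases h' : (stp T p (cor (zz x)) G).head? with _ | y
            · rw [List.head?_eq_none_iff] at h'
              exact absurd h' hne
            · rw [h'] at e; simp at e; rw [e]
          have r2 : (stp T p (cor (zz x)) G).getLast? = some 0 := by
            have e : ls (stp T p (cor (zz x)) G) = 0 := le_antisymm hpos.2 hl0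
            unfold ls at e
            rcases h' : (stp T p (cor (zz x)) G).getLast? with _ | y
            · rw [List.getLast?_eq_none_iff] at h'
              exact absurd h' hne
            · rw [h'] at e; simp at e; rw [e]
          rw [IH s _ F.len F.nn r1 r2 hsum]
          ring
      · have hneg : ¬ (n1 (zz x) + n2 (zz x) = (N : ℤ) - 1 ∧
            (∀ c ∈ cls T p (cor (zz x)) G, c = (N : ℤ) - 1)) := fun h => hc h.2
        rw [if_neg hneg, mul_zero]
        split_ifs with hc'
        · have hge : ∀ c ∈ cls T p (cor (zz x)) G, (N : ℤ) - 1 ≤ c := by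
            intro c hcm
            have h3 := Int.le_of_dvd (by have := F.cn c hcm; omega) (hc'.2 c hcm)
            omega
          push Not at hc
          have hgt := sum_gt hge hc
          have hsum : 2 * (stp T p (cor (zz x)) G).sum < (((up T n : ℕ) : ℤ) - 1) * (N - 1) := by
            have a1 := F.sum
            have a3 : (2 : ℤ) * ((cls T p (cor (zz x)) G).length : ℤ) + (up T n : ℕ) = n + 2 := by
              exact_mod_cast F.clen
            rw [cor_sum, hx] at a1
            have a4 : (((up T n : ℕ) : ℤ) - 1) * ((N : ℤ) - 1) =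
                2 * (stp T p (cor (zz x)) G).sum + 2 * ((cls T p (cor (zz x)) G).sum -
                  ((cls T p (cor (zz x)) G).length : ℤ) * ((N : ℤ) - 1)) := by
              linear_combination ((N : ℤ) - 1) * a3 - 2 * a1 - hs
            rw [a4]
            linarith
          rw [hZ D _ hv2 s _ F.len F.nn hsum, mul_zero]
        · rfl
    rw [Finset.sum_congr rfl fun x _ => key x, ← Finset.mul_sum]
    simp only
    ring


open Pool.Agent.Q162.FAL in
/-- **the Kashaev invariant as a state sum**, with the explicit constant -/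
theorem j_ex (N : ℕ) (h : 0 < N) (D : List Pc) (hD : Val D 1) :
    run N (rt N) (D.flatMap els) (fun l => if l = [⟨0, h⟩] then 1 else 0) [⟨0, h⟩] =
      Th N D 1 * N ^ D.length * SD N D [0, 0] := by
  have hθ := g_ex N h D 1 hD
  generalize Th N D 1 = θ at hθ ⊢
  have hGd := Gd_D (N := N) D 1 hD
  have hN : (N : ℂ) ≠ 0 := by exact_mod_cast h.ne'
  have hrt : rt N ≠ 0 := Complex.exp_ne_zero _
  have hnu : ∀ s : ℤ, nu N (-s) * nu N s = 1 := by
    intro s
    unfold nu
    rw [← zpow_add₀ (by simp [hrt]), neg_add_cancel, zpow_zero]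
  have e1 := hGd.loc (fun l => if l = [⟨0, h⟩] then (1 : ℂ) else 0)
    (fun l => (N : ℂ)⁻¹ * ∑ s ∈ range N, nu N (-(s : ℤ)) * UU N (str (s : ℤ) [0, 0]) l) [⟨0, h⟩] rfl ?_
  · rw [e1, hGd.smul _ _ _ rfl, hGd.sum _ _ _ rfl]
    have e2 : ∀ s ∈ range N, run N (rt N) (D.flatMap els)
        (fun l => nu N (-(s : ℤ)) * UU N (str (s : ℤ) [0, 0]) l) [⟨0, h⟩] =
        θ * N ^ (D.map fun P => ex P.ty).sum * SD N D [0, 0] := by
      intro s _
      rw [hGd.smul _ _ _ rfl, hθ (s : ℤ) [0, 0] rfl (by simp) rfl rfl (by simp)]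
      have := hnu (s : ℤ)
      linear_combination (θ * N ^ (D.map fun P => ex P.ty).sum * SD N D [0, 0]) * this
    rw [Finset.sum_congr rfl e2, Finset.sum_const, Finset.card_range, nsmul_eq_mul]
    have e3 : (D.map fun P => ex P.ty).sum = D.length := by
      have h8 := ex_sum D 1 hD
      omega
    rw [e3]
    field_simp
  · intro l hl _
    obtain ⟨x, rfl⟩ := List.length_eq_one_iff.1 hl
    have e4 : ∀ s : ℕ, nu N (-(s : ℤ)) * UU N (str (s : ℤ) [0, 0]) [x] = ph N 0 (s : ℤ) (x : ℕ) := by
      intro s
      have h5 : str (s : ℤ) [0, 0] = [(s : ℤ)] := by simp [str]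
      rw [h5]
      unfold UU
      simp only [List.sum_cons, List.sum_nil, add_zero, uu, mul_one]
      rw [← mul_assoc, hnu, one_mul]
    simp only [e4]
    have e5 : ∀ s : ℕ, ph N 0 (s : ℤ) ((x : ℕ) : ℤ) = cs N (-((((x : ℕ) : ℤ) : ℝ) ^ 2 / 2)) *
        cs N (-(2 * ((s : ℤ) : ℝ) * (((x : ℕ) : ℤ) : ℝ))) := by
      intro s
      rw [← cs_add]
      unfold ph
      congr 1
      push_cast
      ring
    simp only [e5]
    rw [← Finset.mul_sum, orth N h x x.2]
    by_cases hx : (x : ℕ) = 0
    · have hx' : x = ⟨0, h⟩ := Fin.ext hx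
      rw [if_pos hx, hx', if_pos rfl]
      simp [cs_zero, hN]
    · have hx' : x ≠ ⟨0, h⟩ := fun h' => hx (by rw [h'])
      rw [if_neg hx, mul_zero, mul_zero, if_neg]
      intro h'
      exact hx' (by simpa using h')


end Pool.Agent.Q99.FP2
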