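import Pool.Agent.Q99.FP2.Cu

/-!
# Fully augmented links: the operators of the vertices with explicit constants

After `Q224/FAL/TRa.lean`, `TRb.lean`, `TRc.lean` (by helper224).
-/

set_option autoImplicit false

namespace Pool.Agent.Q99.FP2

open Matrix Finset
open Pool.Agent.W715.VC (rt)
open Pool.Agent.W709.QAT (Piece run)
open Pool.Agent.Q191.TW (cs cs_norm rt_cs)
open Pool.Agent.Q191.LB (sg)
open Pool.Agent.Q191.SH (aw)
open Pool.Agent.Q191.TB (Gd Gd_cup Gd_cap Gd_twist run_app)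
open Pool.Agent.Q99.FW (TZ Kg K2 Xm Gd_app)
open Pool.Agent.Q99.FAL
open Pool.Agent.Q224.FAL hiding coreL coreR

/-- the constant of a vertex -/
noncomputable def th (N : ℕ) : Ty → ℕ → ℕ → Bool → ℕ → ℂ
  | .V, _, _, σ, m => Kg N (sg σ) ^ m * K2 N
  | .H, p, n, σ, m => kcup N n (p + 1 + 1) * (Kg N (sg σ) ^ m * K2 N) * kcap N (n - p) p *
      ep N (-1)
  | .YL, p, n, σ, m => kcup N n (p + 1) * (Kg N (sg σ) ^ m * K2 N) * ep N 1 ^ (n - p - 1)
  | .YR, p, n, σ, m => kcup N n p * (Kg N (sg σ) ^ m * K2 N) * ep N 1 ^ (n - p - 1 + 1)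
  | .LL, p, n, σ, m => Kg N (sg σ) ^ m * K2 N * kcap N (n - p - 3) (p + 1) *
      (ep N (-1) * ep N (-1) ^ (n - p - 3))
  | .LR, p, n, σ, m => Kg N (sg σ) ^ m * K2 N * kcap N (n - p - 2) p *
      (ep N (-1) * ep N (-1) ^ (n - p - 3 + 1))

/-- `TR` with the explicit constant -/
def TR' (T : Ty) : Prop := ∀ N : ℕ, 0 < N → ∀ (p n : ℕ) (σ : Bool) (m : ℕ), p + wd T ≤ n →
  ∀ (s : ℤ) (G : List ℤ), G.length = n + 1 → (∀ g ∈ G, 0 ≤ g) →
  ∃ ε : (Fin 6 → Fin N) → ℂ, (∀ x, (∀ c ∈ cls T p (cor (zz x)) G, c = N - 1) → ε x = 1) ∧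
  ∀ l : List (Fin N), l.length = up T n →
    run N (rt N) (els ⟨T, p, σ, m⟩) (UU N (str s G)) l =
      th N T p n σ m * N ^ ex T * ∑ x : Fin 6 → Fin N, if n1 (zz x) + n2 (zz x) = N - 1 ∧
        (∀ c ∈ cls T p (cor (zz x)) G, (N : ℤ) ∣ c + 1) then
          wt6 N (sg σ * m) (zz x) * ε x * UU N (str s (stp T p (cor (zz x)) G)) l else 0

variable {N : ℕ}

theorem tr_V (hP : S_PER) (hR : S_REG) (hF : F1) : TR' .V := by
  intro N hN p n σ m hpn
  have hN0 : (N : ℤ) ≠ 0 := by exact_mod_cast hN.ne'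
  have hpn' : p + 2 ≤ n := hpn
  intro s G hG _
  obtain ⟨G₁, x, g, y, r, rfl, hp, hr⟩ := dec3 hG hpn'
  refine ⟨fun X => ep N (-((g + cor (zz X) 0 + 1) / N - 1)) ^ (r.length + 1), ?_, ?_⟩
  · intro X hX
    rw [cls_V hp] at hX
    have h1 := hX _ (List.mem_singleton_self _)
    have e : g + cor (zz X) 0 + 1 = N := by linarith
    simp only [e]
    rw [Int.ediv_self hN0]
    simp [ep_zero]
  · intro l hl
    have hl' : l.length = n := hl
    rw [str_append, str_cons, str_cons]
    have hlen : (str (s - G₁.sum - x - g) (y :: r)).length = r.length := str_length _ _ _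
    show run N (rt N) (aw p σ m 1) _ l = _
    rw [hR hF N hN σ m p (lab s G₁) _ _ _ (by rw [lab_length, hp]) l (by
      rw [hl', List.length_append, List.length_cons, List.length_cons, hlen, lab_length, hp, hr]
      omega)]
    show Kg N (sg σ) ^ m * K2 N * N * _ = Kg N (sg σ) ^ m * K2 N * N ^ 1 * _
    rw [pow_one]
    congr 1
    refine Finset.sum_congr rfl fun X _ => ?_
    rw [cls_V hp, stp_V hp]
    by_cases hn : n1 (zz X) + n2 (zz X) = N - 1
    swap
    · rw [if_neg (fun h => hn h.2), if_neg (fun h => hn h.1)]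
    have hsum := n12 (zz X)
    rw [hn] at hsum
    beta_reduce
    generalize hq0 : cor (zz X) 0 = q0 at hsum ⊢
    generalize hq1 : cor (zz X) 1 = q1 at hsum ⊢
    generalize hq2 : cor (zz X) 2 = q2 at hsum ⊢
    generalize hq3 : cor (zz X) 3 = q3 at hsum ⊢
    have hx0 : ((X 0 : ℕ) : ℤ) = q0 := by rw [← hq0]; rfl
    set u := s - G₁.sum with hu
    have hiff : (((X 0 : ℕ) : ℤ) = (u - x - g - (u - x) - 1) % N) ↔ (N : ℤ) ∣ g + q0 + 1 := by
      rw [res_iff, hx0, ← Int.dvd_neg]
      have : -(u - x - g - (u - x) - 1 - q0) = g + q0 + 1 := by ring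
      rw [this]
    by_cases hd : (N : ℤ) ∣ g + q0 + 1
    swap
    · rw [if_neg (fun h => hd (hiff.mp h.1)), if_neg]
      intro h
      exact hd (h.2 _ (by simp))
    rw [if_pos ⟨hiff.mpr hd, hn⟩, if_pos ⟨hn, by
      intro c hc
      rw [List.mem_singleton] at hc
      rw [hc]; exact hd⟩]
    obtain ⟨c, hc⟩ := hd
    rw [hc, Int.mul_ediv_cancel_left _ hN0, mul_assoc]
    congr 1
    rw [str_append, ← hu, str_cons, str_cons, str_head]
    have a1 : u - x - g + q1 = (u - (x + q3) - q2) + N * (-(c - 1)) := by linarith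
    have a2 : str (u - x - g) (y :: r) =
        (str (u - (x + q3) - q2 - q1) (y :: r)).map (· + N * (-(c - 1))) := by
      rw [← str_add]; congr 1; linarith
    have a3 : u - x - q3 = u - (x + q3) := by ring
    rw [a1, a2, a3]
    have a4 : lab s G₁ ++ (u - (x + q3)) :: ((u - (x + q3) - q2) + N * (-(c - 1))) ::
        (str (u - (x + q3) - q2 - q1) (y :: r)).map (· + N * (-(c - 1))) =
        (lab s G₁ ++ [u - (x + q3)]) ++ ((u - (x + q3) - q2) ::
          str (u - (x + q3) - q2 - q1) (y :: r)).map (· + N * (-(c - 1))) := by simp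
    rw [a4, per_map hP hN, List.length_cons, str_length]
    congr 2
    simp


theorem tr_LL (hP : S_PER) (hR : S_REG) (hF : F1) : TR' .LL := by
  intro N hN p n σ m hpn
  have hN0 : (N : ℤ) ≠ 0 := by exact_mod_cast hN.ne'
  have hpn' : p + 3 ≤ n := hpn
  have hcap := cap_ex N hN (n - p - 3) (p + 1)
  intro s G hG _
  obtain ⟨G₁, x, g, g', y, r, rfl, hp, hr⟩ := dec4 hG hpn'
  refine ⟨fun X => ep N (-((g' + cor (zz X) 1 + 1) / N - 1)) *
    ep N (-((g + cor (zz X) 0 + 1) / N - 1 + ((g' + cor (zz X) 1 + 1) / N - 1))) ^ r.length,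
    ?_, ?_⟩
  · intro X hX
    rw [cls_LL hp] at hX
    have h1 := hX _ (by simp : g + cor (zz X) 0 ∈ [g + cor (zz X) 0, g' + cor (zz X) 1])
    have h2 := hX _ (by simp : g' + cor (zz X) 1 ∈ [g + cor (zz X) 0, g' + cor (zz X) 1])
    have e : g + cor (zz X) 0 + 1 = N := by linarith
    have e' : g' + cor (zz X) 1 + 1 = N := by linarith
    simp only [e, e']
    rw [Int.ediv_self hN0]
    simp [ep_zero]
  · intro l hl
    have hl' : l.length = n - 2 := hl
    rw [str_append, str_cons, str_cons, str_cons]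
    set u := s - G₁.sum with hu
    have hlen : (str (u - x - g - g') (y :: r)).length = r.length := str_length _ _ _
    show run N (rt N) (aw p σ m 1 ++ [Piece.cap (p + 1)]) _ l = _
    rw [run_app]
    have hgd : Gd (N := N) (n - 2) n (run N (rt N) [Piece.cap (p + 1)]) := by
      have h := Gd_cap (N := N) (p + 1) (n - 2) (by omega)
      have e : n - 2 + 2 = n := by omega
      rw [e] at h
      exact h
    rw [gd_expand hgd Finset.univ _ _ _ _ (fun l' hl'' => reg' hR hF hN σ m p (lab s G₁)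
      ((u - x - g - g') :: str (u - x - g - g') (y :: r)) (u - x) (u - x - g)
      (by rw [lab_length, hp]) l' (by
        simp only [List.length_append, List.length_cons, str_length, lab_length, hp, hr, hl'']
        omega)) l hl']
    show _ = Kg N (sg σ) ^ m * K2 N * kcap N (n - p - 3) (p + 1) *
      (ep N (-1) * ep N (-1) ^ (n - p - 3)) * N ^ 2 * _
    generalize kcap N (n - p - 3) (p + 1) = κ at hcap ⊢
    rw [Finset.mul_sum, Finset.mul_sum]
    refine Finset.sum_congr rfl fun X _ => ?_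
    rw [cls_LL hp, stp_LL hp]
    by_cases hn : n1 (zz X) + n2 (zz X) = N - 1
    swap
    · rw [if_neg (fun h => hn h.2), if_neg (fun h => hn h.1)]; ring
    have hsum := n12 (zz X)
    rw [hn] at hsum
    beta_reduce
    generalize hq0 : cor (zz X) 0 = q0 at hsum ⊢
    generalize hq1 : cor (zz X) 1 = q1 at hsum ⊢
    generalize hq2 : cor (zz X) 2 = q2 at hsum ⊢
    generalize hq3 : cor (zz X) 3 = q3 at hsum ⊢
    have hx0 : ((X 0 : ℕ) : ℤ) = q0 := by rw [← hq0]; rfl
    have hiff : (((X 0 : ℕ) : ℤ) = (u - x - g - (u - x) - 1) % N) ↔ (N : ℤ) ∣ g + q0 + 1 := by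
      rw [res_iff, hx0, ← Int.dvd_neg]
      have : -(u - x - g - (u - x) - 1 - q0) = g + q0 + 1 := by ring
      rw [this]
    by_cases hd : (N : ℤ) ∣ g + q0 + 1
    swap
    · rw [if_neg (fun h => hd (hiff.mp h.1)), if_neg (fun h => hd (h.2 _ (by simp)))]; ring
    rw [if_pos ⟨hiff.mpr hd, hn⟩]
    have b1 : lab s G₁ ++ (u - x - q3) :: (u - x - g + q1) :: (u - x - g - g') ::
        str (u - x - g - g') (y :: r) = (lab s G₁ ++ [u - x - q3]) ++ (u - x - g + q1) ::
        (u - x - g - g') :: str (u - x - g - g') (y :: r) := by simp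
    rw [b1, hcap (lab s G₁ ++ [u - x - q3]) (str (u - x - g - g') (y :: r)) (u - x - g + q1)
      (u - x - g - g') (by simp [lab_length, hp]) (by rw [hlen, hr]) l (by omega)]
    have hiff2 : ((N : ℤ) ∣ u - x - g - g' - (u - x - g + q1) - 1) ↔ (N : ℤ) ∣ g' + q1 + 1 := by
      rw [← Int.dvd_neg]
      have : -(u - x - g - g' - (u - x - g + q1) - 1) = g' + q1 + 1 := by ring
      rw [this]
    by_cases hd2 : (N : ℤ) ∣ g' + q1 + 1
    swap
    · rw [if_neg (fun h => hd2 (hiff2.mp h)), if_neg (fun h => hd2 (h.2 _ (by simp)))]; ring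
    rw [if_pos (hiff2.mpr hd2), if_pos ⟨hn, by
      intro c hc
      simp only [List.mem_cons, List.not_mem_nil, or_false] at hc
      rcases hc with rfl | rfl
      · exact hd
      · exact hd2⟩]
    obtain ⟨c, hc⟩ := hd
    obtain ⟨c', hc'⟩ := hd2
    have e1 : u - x - g - g' - (u - x - g + q1) - 1 = N * (-c') := by linarith
    rw [hc, hc', e1, Int.mul_ediv_cancel_left _ hN0, Int.mul_ediv_cancel_left _ hN0,
      Int.mul_ediv_cancel_left _ hN0]
    rw [str_append, ← hu, str_cons, str_head]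
    have a2 : (str (u - x - g - g') (y :: r)).map (· - 1) =
        (str (u - (x + q3) - q2) (y :: r)).map (· + N * (-(c + c' - 1))) := by
      have a0 : (fun t : ℤ => t - 1) = (fun t => t + (-1)) := by funext t; ring
      rw [a0, ← str_add, ← str_add]; congr 1; linarith
    have a3 : u - x - q3 = u - (x + q3) := by ring
    rw [a2, a3, per_map hP hN, str_length]
    have a4 : (lab s G₁ ++ [u - (x + q3)]) ++ str (u - (x + q3) - q2) (y :: r) =
        lab s G₁ ++ (u - (x + q3)) :: str (u - (x + q3) - q2) (y :: r) := by simp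
    have s1 : ep N (-c') = ep N (-1) * ep N (-(c' - 1)) := by rw [← ep_add]; congr 1; ring
    have s2 : ep N (-(c + c' - 1)) = ep N (-1) * ep N (-(c - 1 + (c' - 1))) := by
      rw [← ep_add]; congr 1; ring
    rw [a4, s1, s2, mul_pow, hr]
    ring

theorem tr_LR (hP : S_PER) (hR : S_REG) (hF : F1) : TR' .LR := by
  intro N hN p n σ m hpn
  have hN0 : (N : ℤ) ≠ 0 := by exact_mod_cast hN.ne'
  have hpn' : p + 3 ≤ n := hpn
  have hcap := cap_ex N hN (n - p - 2) p
  intro s G hG _
  obtain ⟨G₁, x, g, g', y, r, rfl, hp, hr⟩ := dec4 hG hpn'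
  refine ⟨fun X => ep N (-((g + cor (zz X) 3 + 1) / N - 1)) *
    ep N (-((g + cor (zz X) 3 + 1) / N - 1 + ((g' + cor (zz X) 0 + 1) / N - 1))) ^
      (r.length + 1), ?_, ?_⟩
  · intro X hX
    rw [cls_LR hp] at hX
    have h1 := hX _ (by simp : g + cor (zz X) 3 ∈ [g + cor (zz X) 3, g' + cor (zz X) 0])
    have h2 := hX _ (by simp : g' + cor (zz X) 0 ∈ [g + cor (zz X) 3, g' + cor (zz X) 0])
    have e : g + cor (zz X) 3 + 1 = N := by linarith
    have e' : g' + cor (zz X) 0 + 1 = N := by linarith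
    simp only [e, e']
    rw [Int.ediv_self hN0]
    simp [ep_zero]
  · intro l hl
    have hl' : l.length = n - 2 := hl
    rw [str_append, str_cons, str_cons, str_cons]
    set u := s - G₁.sum with hu
    have hlen : (str (u - x - g - g') (y :: r)).length = r.length := str_length _ _ _
    show run N (rt N) (aw (p + 1) σ m 1 ++ [Piece.cap p]) _ l = _
    rw [run_app]
    have hgd : Gd (N := N) (n - 2) n (run N (rt N) [Piece.cap p]) := by
      have h := Gd_cap (N := N) p (n - 2) (by omega)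
      have e : n - 2 + 2 = n := by omega
      rw [e] at h
      exact h
    have b0 : lab s G₁ ++ (u - x) :: (u - x - g) :: (u - x - g - g') ::
        str (u - x - g - g') (y :: r) = (lab s G₁ ++ [u - x]) ++ (u - x - g) ::
        (u - x - g - g') :: str (u - x - g - g') (y :: r) := by simp
    rw [b0]
    rw [gd_expand hgd Finset.univ _ _ _ _ (fun l' hl'' => reg' hR hF hN σ m (p + 1)
      (lab s G₁ ++ [u - x]) (str (u - x - g - g') (y :: r)) (u - x - g) (u - x - g - g')
      (by simp [lab_length, hp]) l' (by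
        simp only [List.length_append, List.length_cons, List.length_nil, str_length,
          lab_length, hp, hr, hl'']
        omega)) l hl']
    show _ = Kg N (sg σ) ^ m * K2 N * kcap N (n - p - 2) p *
      (ep N (-1) * ep N (-1) ^ (n - p - 3 + 1)) * N ^ 2 * _
    generalize kcap N (n - p - 2) p = κ at hcap ⊢
    rw [Finset.mul_sum, Finset.mul_sum]
    refine Finset.sum_congr rfl fun X _ => ?_
    rw [cls_LR hp, stp_LR hp]
    by_cases hn : n1 (zz X) + n2 (zz X) = N - 1
    swap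
    · rw [if_neg (fun h => hn h.2), if_neg (fun h => hn h.1)]; ring
    have hsum := n12 (zz X)
    rw [hn] at hsum
    beta_reduce
    generalize hq0 : cor (zz X) 0 = q0 at hsum ⊢
    generalize hq1 : cor (zz X) 1 = q1 at hsum ⊢
    generalize hq2 : cor (zz X) 2 = q2 at hsum ⊢
    generalize hq3 : cor (zz X) 3 = q3 at hsum ⊢
    have hx0 : ((X 0 : ℕ) : ℤ) = q0 := by rw [← hq0]; rfl
    have hiff : (((X 0 : ℕ) : ℤ) = (u - x - g - g' - (u - x - g) - 1) % N) ↔
        (N : ℤ) ∣ g' + q0 + 1 := by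
      rw [res_iff, hx0, ← Int.dvd_neg]
      have : -(u - x - g - g' - (u - x - g) - 1 - q0) = g' + q0 + 1 := by ring
      rw [this]
    by_cases hd : (N : ℤ) ∣ g' + q0 + 1
    swap
    · rw [if_neg (fun h => hd (hiff.mp h.1)), if_neg (fun h => hd (h.2 _ (by simp)))]; ring
    rw [if_pos ⟨hiff.mpr hd, hn⟩]
    have b1 : (lab s G₁ ++ [u - x]) ++ (u - x - g - q3) :: (u - x - g - g' + q1) ::
        str (u - x - g - g') (y :: r) = lab s G₁ ++ (u - x) :: (u - x - g - q3) ::
        ((u - x - g - g' + q1) :: str (u - x - g - g') (y :: r)) := by simp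
    rw [b1, hcap (lab s G₁) ((u - x - g - g' + q1) :: str (u - x - g - g') (y :: r)) (u - x)
      (u - x - g - q3) (by simp [lab_length, hp]) (by
        rw [List.length_cons, hlen, hr]; omega) l (by omega)]
    have hiff2 : ((N : ℤ) ∣ u - x - g - q3 - (u - x) - 1) ↔ (N : ℤ) ∣ g + q3 + 1 := by
      rw [← Int.dvd_neg]
      have : -(u - x - g - q3 - (u - x) - 1) = g + q3 + 1 := by ring
      rw [this]
    by_cases hd2 : (N : ℤ) ∣ g + q3 + 1
    swap
    · rw [if_neg (fun h => hd2 (hiff2.mp h)), if_neg (fun h => hd2 (h.2 _ (by simp)))]; ring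
    rw [if_pos (hiff2.mpr hd2), if_pos ⟨hn, by
      intro c hc
      simp only [List.mem_cons, List.not_mem_nil, or_false] at hc
      rcases hc with rfl | rfl
      · exact hd2
      · exact hd⟩]
    obtain ⟨c', hc'⟩ := hd
    obtain ⟨c, hc⟩ := hd2
    have e1 : u - x - g - q3 - (u - x) - 1 = N * (-c) := by linarith
    rw [hc, hc', e1, Int.mul_ediv_cancel_left _ hN0, Int.mul_ediv_cancel_left _ hN0,
      Int.mul_ediv_cancel_left _ hN0]
    rw [str_append, ← hu, str_cons, str_head]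
    have a0 : (fun t : ℤ => t - 1) = (fun t => t + (-1)) := by funext t; ring
    have a2 : ((u - x - g - g' + q1) :: str (u - x - g - g') (y :: r)).map (· - 1) =
        ((u - (x + q2)) :: str (u - (x + q2) - q1) (y :: r)).map (· + N * (-(c + c' - 1))) := by
      rw [List.map_cons, List.map_cons, a0, ← str_add, ← str_add]
      congr 1
      · linarith
      · congr 1; linarith
    rw [a2, per_map hP hN, List.length_cons, str_length]
    have s1 : ep N (-c) = ep N (-1) * ep N (-(c - 1)) := by rw [← ep_add]; congr 1; ring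
    have s2 : ep N (-(c + c' - 1)) = ep N (-1) * ep N (-(c - 1 + (c' - 1))) := by
      rw [← ep_add]; congr 1; ring
    rw [s1, s2, mul_pow, hr]
    ring


/-- a cup and a region on its left leg -/
theorem coreL (hP : S_PER) (hR : S_REG) (hF : F1) (hN : 0 < N) (σ : Bool)
    (m p n : ℕ) (hpn : p + 1 ≤ n) : ∀ (L R : List ℤ) (i : ℤ),
    L.length = p → R.length + p + 1 = n → ∀ l : List (Fin N), l.length = n + 2 →
    run N (rt N) (aw p σ m 1) (run N (rt N) [Piece.cup (p + 1)] (UU N (L ++ i :: R))) l =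
      kcup N n (p + 1) * (Kg N (sg σ) ^ m * K2 N) * ∑ x : Fin 6 → Fin N,
        (if n1 (zz x) + n2 (zz x) = N - 1 then wt6 N (sg σ * m) (zz x) else 0) *
          UU N (L ++ (i - cor (zz x) 3) :: (i + 1 + cor (zz x) 0 - N + cor (zz x) 1) ::
            (i + 1 + cor (zz x) 0 - N) :: R.map (· + 1)) l := by
  have hcup := cup_ex N hN n (p + 1) hpn
  generalize kcup N n (p + 1) = κ at hcup ⊢
  intro L R i hL hRl l hl
  have hNc : (N : ℂ) ≠ 0 := by exact_mod_cast hN.ne'
  have hf : ∀ l' : List (Fin N), l'.length = n + 2 →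
      run N (rt N) [Piece.cup (p + 1)] (UU N (L ++ i :: R)) l' =
        κ / N * ∑ t ∈ range N, 1 * UU N (L ++ i :: (t : ℤ) :: ((t : ℤ) :: R.map (· + 1))) l' := by
    intro l' hl'
    rw [hcup (L ++ i :: R) (by rw [List.length_append, List.length_cons]; omega) l' hl']
    have e1 : (L ++ i :: R).take (p + 1) = L ++ [i] := by
      have : L ++ i :: R = (L ++ [i]) ++ R := by simp
      rw [this]
      exact List.take_left' (by simp [hL])
    have e2 : (L ++ i :: R).drop (p + 1) = R := by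
      have : L ++ i :: R = (L ++ [i]) ++ R := by simp
      rw [this]
      exact List.drop_left' (by simp [hL])
    rw [e1, e2]
    simp
  rw [gd_expand (Gd_aw p (n + 2) (by omega) σ m) (range N) _ _ _ _ hf l hl]
  have hreg : ∀ t ∈ range N, (1 : ℂ) * run N (rt N) (aw p σ m 1)
      (UU N (L ++ i :: (t : ℤ) :: ((t : ℤ) :: R.map (· + 1)))) l =
      (Kg N (sg σ) ^ m * K2 N * N) * ∑ x : Fin 6 → Fin N,
        (if ((x 0 : ℕ) : ℤ) = ((t : ℤ) - i - 1) % N ∧ n1 (zz x) + n2 (zz x) = N - 1 then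
          wt6 N (sg σ * m) (zz x) else 0) *
          UU N (L ++ (i - cor (zz x) 3) :: ((t : ℤ) + cor (zz x) 1) :: ((t : ℤ) ::
            R.map (· + 1))) l := by
    intro t _
    rw [one_mul]
    exact reg' hR hF hN σ m p L ((t : ℤ) :: R.map (· + 1)) i t hL l (by
      simp only [List.length_append, List.length_cons, List.length_map, hl]
      omega)
  rw [Finset.sum_congr rfl hreg]
  have key := cup_sum hN (Kg N (sg σ) ^ m * K2 N * N)
    (fun x t => UU N (L ++ (i - cor (zz x) 3) :: (t + cor (zz x) 1) :: (t ::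
      R.map (· + 1))) l) (fun x => i + 1 + cor (zz x) 0)
    (fun x t => ((x 0 : ℕ) : ℤ) = (t - i - 1) % N) (fun x t => by
      rw [res_iff]
      have : (t : ℤ) - i - 1 - ((x 0 : ℕ) : ℤ) = t - (i + 1 + cor (zz x) 0) := by
        have : cor (zz x) 0 = ((x 0 : ℕ) : ℤ) := rfl
        rw [this]; ring
      rw [this]) (fun x => wt6 N (sg σ * m) (zz x)) (fun x t k => by
      have e : t + N * k + cor (zz x) 1 = (t + cor (zz x) 1) + N * k := by ring
      simp only [e]
      have := per2 hP hN (L ++ [i - cor (zz x) 3]) [] (R.map (· + 1)) (t + cor (zz x) 1) t k l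
      simpa using this)
  rw [key]
  have hK : κ / N * (Kg N (sg σ) ^ m * K2 N * N * ∑ x : Fin 6 → Fin N,
      (if n1 (zz x) + n2 (zz x) = N - 1 then wt6 N (sg σ * m) (zz x) else 0) *
        UU N (L ++ (i - cor (zz x) 3) :: (i + 1 + cor (zz x) 0 + cor (zz x) 1) ::
          ((i + 1 + cor (zz x) 0) :: R.map (· + 1))) l) =
      κ * (Kg N (sg σ) ^ m * K2 N) * ∑ x : Fin 6 → Fin N,
      (if n1 (zz x) + n2 (zz x) = N - 1 then wt6 N (sg σ * m) (zz x) else 0) *
        UU N (L ++ (i - cor (zz x) 3) :: (i + 1 + cor (zz x) 0 + cor (zz x) 1) ::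
          ((i + 1 + cor (zz x) 0) :: R.map (· + 1))) l := by
    field_simp
  refine (show _ = _ from hK).trans ?_
  congr 1
  refine Finset.sum_congr rfl fun x _ => ?_
  congr 1
  have := per2 hP hN (L ++ [i - cor (zz x) 3]) [] (R.map (· + 1))
    (i + 1 + cor (zz x) 0 + cor (zz x) 1) (i + 1 + cor (zz x) 0) (-1) l
  have e1 : i + 1 + cor (zz x) 0 - N + cor (zz x) 1 =
    i + 1 + cor (zz x) 0 + cor (zz x) 1 + N * (-1) := by ring
  have e2 : i + 1 + cor (zz x) 0 - N = i + 1 + cor (zz x) 0 + N * (-1) := by ring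
  rw [e1, e2]
  have e3 := this.symm
  simpa using e3

/-- a cup and a region on its right leg -/
theorem coreR (hP : S_PER) (hR : S_REG) (hF : F1) (hN : 0 < N) (σ : Bool)
    (m p n : ℕ) (hpn : p + 1 ≤ n) : ∀ (L R : List ℤ) (j : ℤ),
    L.length = p → R.length + p + 1 = n → ∀ l : List (Fin N), l.length = n + 2 →
    run N (rt N) (aw (p + 1) σ m 1) (run N (rt N) [Piece.cup p] (UU N (L ++ j :: R))) l =
      kcup N n p * (Kg N (sg σ) ^ m * K2 N) * ∑ x : Fin 6 → Fin N,
        (if n1 (zz x) + n2 (zz x) = N - 1 then wt6 N (sg σ * m) (zz x) else 0) *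
          UU N (L ++ (j - cor (zz x) 0) :: (j - cor (zz x) 0 - cor (zz x) 3) ::
            (j + 1 + cor (zz x) 1) :: R.map (· + 1)) l := by
  have hcup := cup_ex N hN n p (by omega)
  generalize kcup N n p = κ at hcup ⊢
  intro L R j hL hRl l hl
  have hNc : (N : ℂ) ≠ 0 := by exact_mod_cast hN.ne'
  have hf : ∀ l' : List (Fin N), l'.length = n + 2 →
      run N (rt N) [Piece.cup p] (UU N (L ++ j :: R)) l' =
        κ / N * ∑ t ∈ range N, 1 * UU N ((L ++ [(t : ℤ)]) ++ (t : ℤ) :: (j + 1) ::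
          R.map (· + 1)) l' := by
    intro l' hl'
    rw [hcup (L ++ j :: R) (by rw [List.length_append, List.length_cons]; omega) l' hl']
    rw [List.take_left' hL, List.drop_left' hL]
    simp
  rw [gd_expand (Gd_aw (p + 1) (n + 2) (by omega) σ m) (range N) _ _ _ _ hf l hl]
  have hreg : ∀ t ∈ range N, (1 : ℂ) * run N (rt N) (aw (p + 1) σ m 1)
      (UU N ((L ++ [(t : ℤ)]) ++ (t : ℤ) :: (j + 1) :: R.map (· + 1))) l =
      (Kg N (sg σ) ^ m * K2 N * N) * ∑ x : Fin 6 → Fin N,
        (if ((x 0 : ℕ) : ℤ) = (j + 1 - (t : ℤ) - 1) % N ∧ n1 (zz x) + n2 (zz x) = N - 1 then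
          wt6 N (sg σ * m) (zz x) else 0) *
          UU N ((L ++ [(t : ℤ)]) ++ ((t : ℤ) - cor (zz x) 3) :: (j + 1 + cor (zz x) 1) ::
            R.map (· + 1)) l := by
    intro t _
    rw [one_mul]
    exact reg' hR hF hN σ m (p + 1) (L ++ [(t : ℤ)]) (R.map (· + 1)) t (j + 1) (by simp [hL]) l (by
      simp only [List.length_append, List.length_cons, List.length_nil, List.length_map, hl]
      omega)
  rw [Finset.sum_congr rfl hreg]
  have key := cup_sum hN (Kg N (sg σ) ^ m * K2 N * N)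
    (fun x t => UU N ((L ++ [t]) ++ (t - cor (zz x) 3) :: (j + 1 + cor (zz x) 1) ::
      R.map (· + 1)) l) (fun x => j - cor (zz x) 0)
    (fun x t => ((x 0 : ℕ) : ℤ) = (j + 1 - t - 1) % N) (fun x t => by
      rw [res_iff, ← Int.dvd_neg]
      have : -(j + 1 - (t : ℤ) - 1 - ((x 0 : ℕ) : ℤ)) = t - (j - cor (zz x) 0) := by
        have : cor (zz x) 0 = ((x 0 : ℕ) : ℤ) := rfl
        rw [this]; ring
      rw [this]) (fun x => wt6 N (sg σ * m) (zz x)) (fun x t k => by
      have e : t + N * k - cor (zz x) 3 = (t - cor (zz x) 3) + N * k := by ring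
      simp only [e]
      have := per2 hP hN L [] ((j + 1 + cor (zz x) 1) :: R.map (· + 1)) t (t - cor (zz x) 3) k l
      simpa using this)
  rw [key]
  have hK : κ / N * (Kg N (sg σ) ^ m * K2 N * N * ∑ x : Fin 6 → Fin N,
      (if n1 (zz x) + n2 (zz x) = N - 1 then wt6 N (sg σ * m) (zz x) else 0) *
        UU N ((L ++ [j - cor (zz x) 0]) ++ (j - cor (zz x) 0 - cor (zz x) 3) ::
          (j + 1 + cor (zz x) 1) :: R.map (· + 1)) l) =
      κ * (Kg N (sg σ) ^ m * K2 N) * ∑ x : Fin 6 → Fin N,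
      (if n1 (zz x) + n2 (zz x) = N - 1 then wt6 N (sg σ * m) (zz x) else 0) *
        UU N ((L ++ [j - cor (zz x) 0]) ++ (j - cor (zz x) 0 - cor (zz x) 3) ::
          (j + 1 + cor (zz x) 1) :: R.map (· + 1)) l := by
    field_simp
  refine (show _ = _ from hK).trans ?_
  congr 1
  refine Finset.sum_congr rfl fun x _ => ?_
  congr 1
  simp

theorem tr_YL (hP : S_PER) (hR : S_REG) (hF : F1) : TR' .YL := by
  intro N hN p n σ m hpn
  have hpn' : p + 1 ≤ n := hpn
  have hcore := coreL hP hR hF hN σ m p n hpn'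
  intro s G hG _
  obtain ⟨G₁, x, y, r, rfl, hp, hr⟩ := dec2 hG hpn'
  refine ⟨fun _ => 1, fun _ _ => rfl, ?_⟩
  intro l hl
  have hl' : l.length = n + 2 := hl
  rw [str_append, str_cons]
  set u := s - G₁.sum with hu
  show run N (rt N) (aw p σ m 1) (run N (rt N) [Piece.cup (p + 1)] _) l = _
  rw [hcore (lab s G₁) (str (u - x) (y :: r)) (u - x) (by rw [lab_length, hp]) (by
    rw [str_length]; omega) l hl']
  show _ = kcup N n (p + 1) * (Kg N (sg σ) ^ m * K2 N) * ep N 1 ^ (n - p - 1) * N ^ 0 * _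
  generalize kcup N n (p + 1) * (Kg N (sg σ) ^ m * K2 N) = κ
  rw [pow_zero, mul_one, mul_assoc]
  congr 1
  rw [Finset.mul_sum]
  refine Finset.sum_congr rfl fun X _ => ?_
  rw [cls_YL, stp_YL hp]
  by_cases hn : n1 (zz X) + n2 (zz X) = N - 1
  swap
  · rw [if_neg hn, if_neg (fun h => hn h.1)]; ring
  have hsum := n12 (zz X)
  rw [hn] at hsum
  beta_reduce
  generalize hq0 : cor (zz X) 0 = q0 at hsum ⊢
  generalize hq1 : cor (zz X) 1 = q1 at hsum ⊢
  generalize hq2 : cor (zz X) 2 = q2 at hsum ⊢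
  generalize hq3 : cor (zz X) 3 = q3 at hsum ⊢
  rw [if_pos hn, if_pos ⟨hn, by simp⟩, str_append, ← hu, str_cons, str_cons, str_cons, str_head]
  have a1 : u - x + 1 + q0 - N + q1 = u - (x + q3) - q2 := by linarith
  have a2 : u - x + 1 + q0 - N = u - (x + q3) - q2 - q1 := by linarith
  have a3 : (str (u - x) (y :: r)).map (· + 1) =
      (str (u - (x + q3) - q2 - q1 - q0) (y :: r)).map (· + (N : ℤ) * 1) := by
    rw [← str_add, ← str_add]; congr 1; linarith
  have a5 : u - x - q3 = u - (x + q3) := by ring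
  rw [a1, a2, a3, a5]
  have a4 : lab s G₁ ++ (u - (x + q3)) :: (u - (x + q3) - q2) :: (u - (x + q3) - q2 - q1) ::
      (str (u - (x + q3) - q2 - q1 - q0) (y :: r)).map (· + (N : ℤ) * 1) =
      (lab s G₁ ++ [u - (x + q3), u - (x + q3) - q2, u - (x + q3) - q2 - q1]) ++
        (str (u - (x + q3) - q2 - q1 - q0) (y :: r)).map (· + (N : ℤ) * 1) := by simp
  have a6 : (lab s G₁ ++ [u - (x + q3), u - (x + q3) - q2, u - (x + q3) - q2 - q1]) ++
        str (u - (x + q3) - q2 - q1 - q0) (y :: r) =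
      lab s G₁ ++ (u - (x + q3)) :: (u - (x + q3) - q2) :: (u - (x + q3) - q2 - q1) ::
        str (u - (x + q3) - q2 - q1 - q0) (y :: r) := by simp
  rw [a4, per_map hP hN, str_length, hr, a6]
  ring

theorem tr_YR (hP : S_PER) (hR : S_REG) (hF : F1) : TR' .YR := by
  intro N hN p n σ m hpn
  have hpn' : p + 1 ≤ n := hpn
  have hcore := coreR hP hR hF hN σ m p n hpn'
  intro s G hG _
  obtain ⟨G₁, x, y, r, rfl, hp, hr⟩ := dec2 hG hpn'
  refine ⟨fun _ => 1, fun _ _ => rfl, ?_⟩
  intro l hl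
  have hl' : l.length = n + 2 := hl
  rw [str_append, str_cons]
  set u := s - G₁.sum with hu
  show run N (rt N) (aw (p + 1) σ m 1) (run N (rt N) [Piece.cup p] _) l = _
  rw [hcore (lab s G₁) (str (u - x) (y :: r)) (u - x) (by rw [lab_length, hp]) (by
    rw [str_length]; omega) l hl']
  show _ = kcup N n p * (Kg N (sg σ) ^ m * K2 N) * ep N 1 ^ (n - p - 1 + 1) * N ^ 0 * _
  generalize kcup N n p * (Kg N (sg σ) ^ m * K2 N) = κ
  rw [pow_zero, mul_one, mul_assoc]
  congr 1
  rw [Finset.mul_sum]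
  refine Finset.sum_congr rfl fun X _ => ?_
  rw [cls_YR, stp_YR hp]
  by_cases hn : n1 (zz X) + n2 (zz X) = N - 1
  swap
  · rw [if_neg hn, if_neg (fun h => hn h.1)]; ring
  have hsum := n12 (zz X)
  rw [hn] at hsum
  beta_reduce
  generalize hq0 : cor (zz X) 0 = q0 at hsum ⊢
  generalize hq1 : cor (zz X) 1 = q1 at hsum ⊢
  generalize hq2 : cor (zz X) 2 = q2 at hsum ⊢
  generalize hq3 : cor (zz X) 3 = q3 at hsum ⊢
  rw [if_pos hn, if_pos ⟨hn, by simp⟩, str_append, ← hu, str_cons, str_cons, str_cons, str_head]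
  have a1 : u - x + 1 + q1 = (u - (x + q0) - q3 - q2) + (N : ℤ) * 1 := by linarith
  have a3 : (str (u - x) (y :: r)).map (· + 1) =
      (str (u - (x + q0) - q3 - q2 - q1) (y :: r)).map (· + (N : ℤ) * 1) := by
    rw [← str_add, ← str_add]; congr 1; linarith
  have a5 : u - x - q0 = u - (x + q0) := by ring
  rw [a1, a3, a5]
  have a4 : lab s G₁ ++ (u - (x + q0)) :: (u - (x + q0) - q3) ::
      (u - (x + q0) - q3 - q2 + (N : ℤ) * 1) ::
      (str (u - (x + q0) - q3 - q2 - q1) (y :: r)).map (· + (N : ℤ) * 1) =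
      (lab s G₁ ++ [u - (x + q0), u - (x + q0) - q3]) ++
        ((u - (x + q0) - q3 - q2) :: str (u - (x + q0) - q3 - q2 - q1) (y :: r)).map
          (· + (N : ℤ) * 1) := by simp
  have a6 : (lab s G₁ ++ [u - (x + q0), u - (x + q0) - q3]) ++
        ((u - (x + q0) - q3 - q2) :: str (u - (x + q0) - q3 - q2 - q1) (y :: r)) =
      lab s G₁ ++ (u - (x + q0)) :: (u - (x + q0) - q3) :: (u - (x + q0) - q3 - q2) ::
        str (u - (x + q0) - q3 - q2 - q1) (y :: r) := by simp
  rw [a4, per_map hP hN, List.length_cons, str_length, hr, a6]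
  ring

theorem tr_H (hP : S_PER) (hR : S_REG) (hF : F1) : TR' .H := by
  intro N hN p n σ m hpn
  have hN0 : (N : ℤ) ≠ 0 := by exact_mod_cast hN.ne'
  have hpn' : p + 2 ≤ n := hpn
  have hcore := coreL hP hR hF hN σ m (p + 1) n (by omega)
  have hcap := cap_ex N hN (n - p) p
  intro s G hG _
  obtain ⟨G₁, x, g, y, r, rfl, hp, hr⟩ := dec3 hG hpn'
  refine ⟨fun X => ep N (-((g + cor (zz X) 3 + 1) / N - 1)) ^ (r.length + 1), ?_, ?_⟩
  · intro X hX
    rw [cls_H hp] at hX
    have h1 := hX _ (List.mem_singleton_self _)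
    have e : g + cor (zz X) 3 + 1 = N := by linarith
    simp only [e]
    rw [Int.ediv_self hN0]
    simp [ep_zero]
  · intro l hl
    have hl' : l.length = n := hl
    rw [str_append, str_cons, str_cons]
    set u := s - G₁.sum with hu
    have e0 : els ⟨.H, p, σ, m⟩ = [Piece.cup (p + 1 + 1)] ++ (aw (p + 1) σ m 1 ++ [Piece.cap p]) :=
      rfl
    rw [e0, run_app, run_app]
    have hgd : Gd (N := N) n (n + 2) (run N (rt N) [Piece.cap p]) :=
      Gd_cap (N := N) p n (by omega)
    have b0 : lab s G₁ ++ (u - x) :: (u - x - g) :: str (u - x - g) (y :: r) =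
        (lab s G₁ ++ [u - x]) ++ (u - x - g) :: str (u - x - g) (y :: r) := by simp
    rw [b0]
    rw [gd_expand hgd Finset.univ _ _ _ _ (fun l' hl'' => hcore (lab s G₁ ++ [u - x])
      (str (u - x - g) (y :: r)) (u - x - g) (by simp [lab_length, hp]) (by
        rw [str_length]; omega) l' hl'') l hl']
    show _ = kcup N n (p + 1 + 1) * (Kg N (sg σ) ^ m * K2 N) * kcap N (n - p) p * ep N (-1) *
      N ^ 1 * _
    generalize kcap N (n - p) p = κ' at hcap ⊢
    rw [Finset.mul_sum, Finset.mul_sum]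
    refine Finset.sum_congr rfl fun X _ => ?_
    rw [cls_H hp, stp_H hp]
    by_cases hn : n1 (zz X) + n2 (zz X) = N - 1
    swap
    · rw [if_neg hn, if_neg (fun h => hn h.1)]; ring
    have hsum := n12 (zz X)
    rw [hn] at hsum
    beta_reduce
    generalize hq0 : cor (zz X) 0 = q0 at hsum ⊢
    generalize hq1 : cor (zz X) 1 = q1 at hsum ⊢
    generalize hq2 : cor (zz X) 2 = q2 at hsum ⊢
    generalize hq3 : cor (zz X) 3 = q3 at hsum ⊢
    rw [if_pos hn]
    have b1 : (lab s G₁ ++ [u - x]) ++ (u - x - g - q3) :: (u - x - g + 1 + q0 - N + q1) ::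
        (u - x - g + 1 + q0 - N) :: (str (u - x - g) (y :: r)).map (· + 1) =
        lab s G₁ ++ (u - x) :: (u - x - g - q3) :: ((u - x - g + 1 + q0 - N + q1) ::
        (u - x - g + 1 + q0 - N) :: (str (u - x - g) (y :: r)).map (· + 1)) := by simp
    rw [b1, hcap (lab s G₁) _ (u - x) (u - x - g - q3) (by simp [lab_length, hp]) (by
        rw [List.length_cons, List.length_cons, List.length_map, str_length, hr]; omega) l
        (by omega)]
    have hiff2 : ((N : ℤ) ∣ u - x - g - q3 - (u - x) - 1) ↔ (N : ℤ) ∣ g + q3 + 1 := by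
      rw [← Int.dvd_neg]
      have : -(u - x - g - q3 - (u - x) - 1) = g + q3 + 1 := by ring
      rw [this]
    by_cases hd2 : (N : ℤ) ∣ g + q3 + 1
    swap
    · rw [if_neg (fun h => hd2 (hiff2.mp h)), if_neg (fun h => hd2 (h.2 _ (by simp)))]; ring
    rw [if_pos (hiff2.mpr hd2), if_pos ⟨hn, by
      intro c hc
      rw [List.mem_singleton] at hc
      rw [hc]; exact hd2⟩]
    obtain ⟨c, hc⟩ := hd2
    have e1 : u - x - g - q3 - (u - x) - 1 = N * (-c) := by linarith
    rw [hc, e1, Int.mul_ediv_cancel_left _ hN0, Int.mul_ediv_cancel_left _ hN0]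
    rw [str_append, ← hu, str_cons, str_cons, str_head]
    have a2 : ((str (u - x - g) (y :: r)).map (· + 1)).map (· - 1) =
        (str (u - (x + q2) - q1 - q0) (y :: r)).map (· + N * (-(c - 1))) := by
      rw [List.map_map, ← str_add]
      have : ((fun t : ℤ => t - 1) ∘ fun t => t + 1) = id := by funext t; simp
      rw [this, List.map_id]
      congr 1; linarith
    have a3 : u - x - g + 1 + q0 - N + q1 - 1 = (u - (x + q2)) + N * (-c) := by linarith
    have a4 : u - x - g + 1 + q0 - N - 1 = (u - (x + q2) - q1) + N * (-c) := by linarith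
    rw [List.map_cons, List.map_cons, a2, a3, a4]
    have a5 := per2 hP hN (lab s G₁) [] ((str (u - (x + q2) - q1 - q0) (y :: r)).map
      (· + N * (-(c - 1)))) (u - (x + q2)) (u - (x + q2) - q1) (-c) l
    rw [List.nil_append, List.nil_append] at a5
    rw [a5]
    have a6 : lab s G₁ ++ (u - (x + q2)) :: (u - (x + q2) - q1) ::
        (str (u - (x + q2) - q1 - q0) (y :: r)).map (· + N * (-(c - 1))) =
        (lab s G₁ ++ [u - (x + q2), u - (x + q2) - q1]) ++
        (str (u - (x + q2) - q1 - q0) (y :: r)).map (· + N * (-(c - 1))) := by simp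
    have a7 : (lab s G₁ ++ [u - (x + q2), u - (x + q2) - q1]) ++
        str (u - (x + q2) - q1 - q0) (y :: r) = lab s G₁ ++ (u - (x + q2)) ::
        (u - (x + q2) - q1) :: str (u - (x + q2) - q1 - q0) (y :: r) := by simp
    rw [a6, per_map hP hN, str_length, a7]
    have s1 : ep N (-c) = ep N (-1) * ep N (-(c - 1)) := by rw [← ep_add]; congr 1; ring
    rw [s1]
    ring


theorem tr_all (T : Ty) : TR' T := by
  cases T
  · exact tr_V Pool.Agent.Q149.FAL.task_PER Pool.Agent.Q246.FAL.task_REG t_F1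
  · exact tr_H Pool.Agent.Q149.FAL.task_PER Pool.Agent.Q246.FAL.task_REG t_F1
  · exact tr_YL Pool.Agent.Q149.FAL.task_PER Pool.Agent.Q246.FAL.task_REG t_F1
  · exact tr_YR Pool.Agent.Q149.FAL.task_PER Pool.Agent.Q246.FAL.task_REG t_F1
  · exact tr_LL Pool.Agent.Q149.FAL.task_PER Pool.Agent.Q246.FAL.task_REG t_F1
  · exact tr_LR Pool.Agent.Q149.FAL.task_PER Pool.Agent.Q246.FAL.task_REG t_F1

end Pool.Agent.Q99.FP2
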